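import Pool.Agent.helper45.TF.Defs2

/-!
Module tf:TR of MP_5b8da6_gt: the boundary of an affine triangle bounds.
-/

namespace Pool.Agent.helper45.TF

open Set Topology

/-- the affine singular 2-simplex -/
noncomputable def TR_tri {V : Type} (P0 P1 P2 : V → ℝ) : C(D2, V → ℝ) where
  toFun x := (x : Fin 3 → ℝ) 0 • P0 + (x : Fin 3 → ℝ) 1 • P1 + (x : Fin 3 → ℝ) 2 • P2
  continuous_toFun := by
    have h : ∀ i : Fin 3, Continuous fun x : D2 => (x : Fin 3 → ℝ) i := fun i =>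
      (continuous_apply i).comp continuous_subtype_val
    exact (((h 0).smul continuous_const).add ((h 1).smul continuous_const)).add
      ((h 2).smul continuous_const)

theorem TR_bd2 {V : Type} (τ : Sing2 V) :
    bd2 (Finsupp.single τ 1) = Finsupp.single (τ.comp (edgeMap 0 1)) 1
      + Finsupp.single (τ.comp (edgeMap 0 2)) 1 + Finsupp.single (τ.comp (edgeMap 1 2)) 1 := by
  unfold bd2
  rw [Finsupp.lsum_single]
  simp

theorem TR_edgeMap (i j k : Fin 3) (t : unitInterval) :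
    ((edgeMap i j t : D2) : Fin 3 → ℝ) k
      = (1 - (t : ℝ)) * (if k = i then 1 else 0) + (t : ℝ) * (if k = j then 1 else 0) := rfl

theorem TR_comp {V : Type} (P0 P1 P2 : V → ℝ) (i j : Fin 3) (t : unitInterval) (v : V) :
    ((TR_tri P0 P1 P2).comp (edgeMap i j)) t v
      = ((edgeMap i j t : D2) : Fin 3 → ℝ) 0 * P0 v + ((edgeMap i j t : D2) : Fin 3 → ℝ) 1 * P1 v
        + ((edgeMap i j t : D2) : Fin 3 → ℝ) 2 * P2 v := rfl

theorem TR_seg {V : Type} (P Q : V → ℝ) (t : unitInterval) (v : V) :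
    segPath P Q t v = (1 - (t : ℝ)) * P v + (t : ℝ) * Q v := rfl

theorem TR_edge01 {V : Type} (P0 P1 P2 : V → ℝ) :
    (TR_tri P0 P1 P2).comp (edgeMap 0 1) = segPath P0 P1 := by
  ext t v
  rw [TR_comp, TR_seg, TR_edgeMap, TR_edgeMap, TR_edgeMap]
  simp

theorem TR_edge02 {V : Type} (P0 P1 P2 : V → ℝ) :
    (TR_tri P0 P1 P2).comp (edgeMap 0 2) = segPath P0 P2 := by
  ext t v
  rw [TR_comp, TR_seg, TR_edgeMap, TR_edgeMap, TR_edgeMap]
  simp

theorem TR_edge12 {V : Type} (P0 P1 P2 : V → ℝ) :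
    (TR_tri P0 P1 P2).comp (edgeMap 1 2) = segPath P1 P2 := by
  ext t v
  rw [TR_comp, TR_seg, TR_edgeMap, TR_edgeMap, TR_edgeMap]
  simp

theorem TR : TR_stmt := by
  intro V _ _ X P0 P1 P2 h
  refine ⟨Finsupp.single (TR_tri P0 P1 P2) 1, ?_, ?_⟩
  · intro τ hτ x
    have h1 : τ = TR_tri P0 P1 P2 := by
      have := Finsupp.support_single_subset hτ
      simpa using this
    rw [h1]
    refine h _ _ _ (x.2.1 0) (x.2.1 1) (x.2.1 2) ?_
    have := x.2.2
    rw [Fin.sum_univ_three] at this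
    exact this
  · rw [TR_bd2, TR_edge01, TR_edge02, TR_edge12]

end Pool.Agent.helper45.TF
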